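import Mathlib

set_option autoImplicit false

/-!
# The octahedral forms
-/

namespace Pool.Agent.Q252.OC

open Polynomial

section forms

variable {R : Type*} [CommRing R]

/-- the form of degree `6` -/
def tO (u v : R) : R := u * v * (u ^ 4 - v ^ 4)

/-- the form of degree `8` -/
def wO (u v : R) : R := u ^ 8 + 14 * u ^ 4 * v ^ 4 + v ^ 8

/-- the form of degree `12` -/
def xO (u v : R) : R := u ^ 12 - 33 * u ^ 8 * v ^ 4 - 33 * u ^ 4 * v ^ 8 + v ^ 12

/-- the octahedral equation -/
theorem oct (u v : R) : xO u v ^ 2 + 108 * tO u v ^ 4 = wO u v ^ 3 := by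
  unfold xO tO wO
  ring

theorem bez (u v : R) : wO u v - (u ^ 4 - v ^ 4) * (u ^ 4 + 15 * v ^ 4) = 16 * v ^ 8 := by
  unfold wO
  ring

theorem w_u (u v : R) : ∃ r, wO u v = v ^ 8 + u * r := by
  refine ⟨u ^ 7 + 14 * u ^ 3 * v ^ 4, ?_⟩
  unfold wO
  ring

theorem w_v (u v : R) : ∃ r, wO u v = u ^ 8 + v * r := by
  refine ⟨v ^ 7 + 14 * u ^ 4 * v ^ 3, ?_⟩
  unfold wO
  ring

theorem t_map {S : Type*} [CommRing S] (g : R →+* S) (u v : R) : g (tO u v) = tO (g u) (g v) := by
  unfold tO
  simp only [map_mul, map_sub, map_pow]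

theorem w_map {S : Type*} [CommRing S] (g : R →+* S) (u v : R) : g (wO u v) = wO (g u) (g v) := by
  unfold wO
  simp only [map_mul, map_add, map_pow, map_ofNat]

theorem x_map {S : Type*} [CommRing S] (g : R →+* S) (u v : R) : g (xO u v) = xO (g u) (g v) := by
  unfold xO
  simp only [map_mul, map_sub, map_add, map_pow, map_ofNat]

end forms

section field

variable {K : Type*} [Field K]

theorem t_hom (u : K) {v : K} (hv : v ≠ 0) : tO u v = v ^ 6 * tO (u / v) 1 := by
  unfold tO
  field_simp

theorem w_hom (u : K) {v : K} (hv : v ≠ 0) : wO u v = v ^ 8 * wO (u / v) 1 := by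
  unfold wO
  field_simp

/-- the polynomials -/
noncomputable def tP (K : Type*) [Field K] : K[X] := tO X 1
noncomputable def wP (K : Type*) [Field K] : K[X] := wO X 1
noncomputable def xP (K : Type*) [Field K] : K[X] := xO X 1

theorem t_eval (s : K) : (tP K).eval s = tO s 1 := by
  have := t_map (evalRingHom s) X (1 : K[X])
  simpa [tP] using this

theorem w_eval (s : K) : (wP K).eval s = wO s 1 := by
  have := w_map (evalRingHom s) X (1 : K[X])
  simpa [wP] using this

theorem x_eval (s : K) : (xP K).eval s = xO s 1 := by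
  have := x_map (evalRingHom s) X (1 : K[X])
  simpa [xP] using this

theorem octP : xP K ^ 2 + 108 * tP K ^ 4 = wP K ^ 3 := oct _ _

theorem t_deg : (tP K).natDegree ≤ 5 := by
  unfold tP tO
  compute_degree

theorem w_deg : (wP K).natDegree = 8 := by
  unfold wP wO
  compute_degree!

theorem x_deg : (xP K).natDegree ≤ 12 := by
  unfold xP xO
  compute_degree

end field

end Pool.Agent.Q252.OC
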