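import Pool.Agent.Q252.OC.A
import Pool.Agent.Q252.IC.B

set_option autoImplicit false

/-!
# The octahedral covering is unramified outside `0, 1, ∞`
-/

namespace Pool.Agent.Q252.OC

open Polynomial NumberField

variable {K : Type*} [Field K]

theorem cop_tw [CharZero K] : IsCoprime (tP K) (wP K) := by
  have hX : IsCoprime (X : K[X]) (wP K) := by
    obtain ⟨r, hr⟩ := w_u (X : K[X]) 1
    refine ⟨-r, 1, ?_⟩
    unfold wP
    rw [hr]
    ring
  have hG : IsCoprime (X ^ 4 - 1 ^ 4 : K[X]) (wP K) := by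
    have hb := bez (X : K[X]) 1
    have e : (C (1 / 16 : K)) * 16 = 1 := by
      rw [← map_ofNat (C : K →+* K[X]) 16, ← C_mul]
      norm_num
    refine ⟨-(C (1 / 16 : K) * (X ^ 4 + 15 * 1 ^ 4)), C (1 / 16 : K), ?_⟩
    unfold wP
    linear_combination C (1 / 16 : K) * hb + e
  have : tP K = X * (X ^ 4 - 1 ^ 4) := by
    unfold tP tO
    ring
  rw [this]
  exact hX.mul_left hG

theorem w_ne : wP K ≠ 0 := by
  intro h
  have := w_deg (K := K)
  rw [h, natDegree_zero] at this
  omega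

theorem t_ne [CharZero K] : tP K ≠ 0 := by
  intro h
  have h1 := t_eval (2 : K)
  rw [h] at h1
  unfold tO at h1
  norm_num at h1

theorem x_ne : xP K ≠ 0 := by
  intro h
  have h1 := x_eval (0 : K)
  rw [h] at h1
  unfold xO at h1
  norm_num at h1

theorem pol_oct : Q265.BM.Pol (C 108 * tP K ^ 4) (wP K ^ 3) ![0, 1] =
    -(wP K ^ 3 * (C 108 * tP K ^ 4) * xP K ^ 2) := by
  unfold Q265.BM.Pol
  rw [Fin.prod_univ_two]
  have h := octP (K := K)
  have e : (C 108 : K[X]) = 108 := map_ofNat C 108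
  simp only [Matrix.cons_val_zero, Matrix.cons_val_one, map_zero, map_one, zero_mul, sub_zero, one_mul, e]
  linear_combination (wP K ^ 3 * (108 * tP K ^ 4)) * h

variable [NumberField K]

/-- the octahedral covering -/
theorem step1 (T : Set K) (H : Q265.BM.VIneq ![0, 1] (Q265.BM.ImgOf (C 108 * tP K ^ 4) (wP K ^ 3) T)) :
    Q265.BM.VIneq (![0, 1] : Fin 2 → K) T := by
  have h108 : (C 108 : K[X]) ≠ 0 := by
    rw [Ne, C_eq_zero]
    norm_num
  have hu : IsUnit (C 108 : K[X]) := by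
    rw [isUnit_C]
    exact isUnit_iff_ne_zero.2 (by norm_num)
  refine Q265.BM.general (d := 24) (by norm_num) ?_ ?_ ?_ (Or.inr ?_) le_rfl ![0, 1]
    (r := xP K * wP K * tP K) (NN := 4) ?_ ?_ ?_ ?_ ![0, 1] Q252.IC.inj01 ?_ T H
  · exact (isCoprime_mul_unit_left_left hu _ _).2 (cop_tw.pow)
  · refine (natDegree_C_mul_le _ _).trans ?_
    rw [natDegree_pow]
    have := t_deg (K := K)
    omega
  · rw [natDegree_pow, w_deg]
  · rw [natDegree_pow, w_deg]
  · rw [pol_oct]
    exact ⟨-(xP K * wP K ^ 2 * (C 108 * tP K ^ 3)), by ring⟩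
  · rw [pol_oct]
    obtain ⟨c, hc⟩ := hu.exists_right_inv
    refine ⟨-(c * (xP K ^ 2 * wP K)), ?_⟩
    linear_combination (-(xP K ^ 4 * wP K ^ 4 * tP K ^ 4)) * hc
  · rw [pol_oct]
    exact neg_ne_zero.2 (mul_ne_zero (mul_ne_zero (pow_ne_zero _ w_ne) (mul_ne_zero h108 (pow_ne_zero _ t_ne)))
      (pow_ne_zero _ x_ne))
  · have h1 := natDegree_mul_le (p := xP K * wP K) (q := tP K)
    have h2 := natDegree_mul_le (p := xP K) (q := wP K)
    have h3 := t_deg (K := K)
    have h4 := w_deg (K := K)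
    have h5 := x_deg (K := K)
    omega
  · intro i
    rw [pol_oct]
    have hz : ∀ s : K, tO s 1 = 0 → (-(wP K ^ 3 * (C 108 * tP K ^ 4) * xP K ^ 2)).eval s = 0 := by
      intro s hs
      simp only [eval_neg, eval_mul, eval_pow, t_eval, hs]
      ring
    apply hz
    have hi : (![0, 1] : Fin 2 → K) i = 0 ∨ (![0, 1] : Fin 2 → K) i = 1 := by
      fin_cases i <;> simp
    rcases hi with hi | hi
    · rw [hi]
      unfold tO
      simp
    · rw [hi]
      unfold tO
      norm_num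

end Pool.Agent.Q252.OC
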