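import Pool.Agent.Q252.OC.A
import Pool.Agent.Q252.IC.C

set_option autoImplicit false

/-!
# Coprime representations over rings of integers that are principal
-/

namespace Pool.Agent.Q252.OC

open NumberField

variable {K : Type} [Field K] [NumberField K]

theorem exists_coprime [IsPrincipalIdealRing (𝓞 K)] (x : K) :
    ∃ a b : 𝓞 K, b ≠ 0 ∧ IsCoprime a b ∧ x = (a : K) / b := by
  obtain ⟨a, b, hab, hx⟩ := IsFractionRing.exists_reduced_fraction (𝓞 K) x
  refine ⟨a, b, nonZeroDivisors.coe_ne_zero b, hab.isCoprime, ?_⟩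
  rw [← hx, IsFractionRing.mk'_eq_div]

/-- the values of `4 t ^ m (1 - t ^ m)` -/
theorem coprime_rep [IsPrincipalIdealRing (𝓞 K)] (M : 𝓞 K) (hM : M ≠ 0) :
    ∃ m : ℕ, 1 ≤ m ∧ ∀ t : K, ∃ u v : 𝓞 K, v ≠ 0 ∧ IsCoprime u v ∧ M ∣ u * v ∧
      4 * t ^ m * (1 - t ^ m) = (u : K) / v := by
  have h16 : (16 : 𝓞 K) ≠ 0 := by norm_num
  obtain ⟨m, hm, hdvd⟩ := Q252.IC.dvd_key (16 * M) (mul_ne_zero h16 hM)
  refine ⟨m, hm, fun t => ?_⟩
  obtain ⟨a, b, hb, hab, rfl⟩ := exists_coprime t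
  obtain ⟨u, v, hv, huv, he⟩ := exists_coprime (4 * ((a : K) / b) ^ m * (1 - ((a : K) / b) ^ m))
  refine ⟨u, v, hv, huv, ?_, he⟩
  have hbK : (b : K) ≠ 0 := RingOfIntegers.coe_ne_zero_iff.2 hb
  have hvK : (v : K) ≠ 0 := RingOfIntegers.coe_ne_zero_iff.2 hv
  have e1 : u * b ^ (2 * m) = v * (4 * a ^ m * (b ^ m - a ^ m)) := by
    apply RingOfIntegers.coe_injective
    push_cast
    rw [eq_div_iff hvK] at he
    have hbm : (b : K) ^ m ≠ 0 := pow_ne_zero _ hbK
    have e2 : 4 * ((a : K) / b) ^ m * (1 - ((a : K) / b) ^ m) * (b : K) ^ (2 * m) =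
        4 * (a : K) ^ m * ((b : K) ^ m - (a : K) ^ m) := by
      rw [div_pow, two_mul, pow_add]
      field_simp
    calc (u : K) * (b : K) ^ (2 * m) =
        v * (4 * ((a : K) / b) ^ m * (1 - ((a : K) / b) ^ m) * (b : K) ^ (2 * m)) := by
          rw [← he]
          ring
      _ = _ := by
          rw [e2]
          congr 3
  have h1 : u ∣ 4 * a ^ m * (b ^ m - a ^ m) := by
    have : u ∣ v * (4 * a ^ m * (b ^ m - a ^ m)) := ⟨b ^ (2 * m), e1.symm⟩
    exact huv.dvd_of_dvd_mul_left this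
  obtain ⟨g, hg⟩ := h1
  by_cases hu : u = 0
  · rw [hu, zero_mul]
    exact dvd_zero M
  have h2 : b ^ (2 * m) = v * g := by
    apply mul_left_cancel₀ hu
    rw [e1, hg]
    ring
  -- `g` divides `4`
  have hcop : IsCoprime (a ^ m * (b ^ m - a ^ m)) (b ^ (2 * m)) := by
    apply IsCoprime.pow_right
    apply IsCoprime.mul_left hab.pow_left
    obtain ⟨n, rfl⟩ : ∃ n, m = n + 1 := ⟨m - 1, by omega⟩
    have h3 : IsCoprime (-a ^ (n + 1)) b := (hab.pow_left).neg_left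
    have h4 : b ^ (n + 1) - a ^ (n + 1) = -a ^ (n + 1) + b ^ n * b := by ring
    rw [h4]
    exact h3.add_mul_right_left (b ^ n)
  have hg4 : g ∣ 4 := by
    have h3 : IsCoprime g (a ^ m * (b ^ m - a ^ m)) :=
      (hcop.symm).of_isCoprime_of_dvd_left ⟨v, by rw [h2]; ring⟩
    have h4 : g ∣ (a ^ m * (b ^ m - a ^ m)) * 4 := ⟨u, by linear_combination hg⟩
    exact h3.dvd_of_dvd_mul_left h4
  obtain ⟨k, hk⟩ := hg4
  have h5 : 16 * M ∣ 16 * (u * v) := by
    have e3 : 16 * (u * v) = (a ^ m * b ^ m * (b ^ m - a ^ m)) * (4 * b ^ m * k ^ 2) := by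
      have e4 : (4 * a ^ m * (b ^ m - a ^ m)) * b ^ (2 * m) = u * v * g ^ 2 := by
        rw [hg, h2]
        ring
      have e5 : (b : 𝓞 K) ^ (2 * m) = b ^ m * b ^ m := by rw [two_mul, pow_add]
      rw [e5] at e4
      have e6 : (g * k) ^ 2 = 16 := by
        rw [← hk]
        norm_num
      linear_combination (-(u * v)) * e6 - k ^ 2 * e4
    rw [e3]
    exact Dvd.dvd.mul_right (hdvd a b) _
  exact (mul_dvd_mul_iff_left h16).1 h5

/-- the forms of degrees `12` and `8` are coprime if `6 ∣ u v` -/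
theorem cop_xw {u v : 𝓞 K} (huv : IsCoprime u v) (h6 : (6 : 𝓞 K) ∣ u * v) :
    IsCoprime (xO u v) (wO u v) := by
  rw [← Ideal.isCoprime_span_singleton_iff, Ideal.isCoprime_iff_sup_eq]
  by_contra hne
  obtain ⟨P, hP, hle⟩ := Ideal.exists_le_maximal _ hne
  have hPp : P.IsPrime := hP.isPrime
  have hx : xO u v ∈ P := hle (Ideal.mem_sup_left (Ideal.mem_span_singleton_self _))
  have hw : wO u v ∈ P := hle (Ideal.mem_sup_right (Ideal.mem_span_singleton_self _))
  have hbad : ¬ (u ∈ P ∧ v ∈ P) := by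
    rintro ⟨h1, h2⟩
    obtain ⟨x, y, hxy⟩ := huv
    apply hPp.ne_top
    rw [Ideal.eq_top_iff_one, ← hxy]
    exact P.add_mem (P.mul_mem_left _ h1) (P.mul_mem_left _ h2)
  have h6P : (6 : 𝓞 K) ∈ P → u ∈ P ∨ v ∈ P := by
    intro h
    exact hPp.mem_or_mem (P.mem_of_dvd h6 h)
  have h2P : (2 : 𝓞 K) ∈ P → u ∈ P ∨ v ∈ P := by
    intro h
    apply h6P
    have e : (6 : 𝓞 K) = 3 * 2 := by norm_num
    rw [e]
    exact P.mul_mem_left _ h
  have h3P : (3 : 𝓞 K) ∈ P → u ∈ P ∨ v ∈ P := by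
    intro h
    apply h6P
    have e : (6 : 𝓞 K) = 2 * 3 := by norm_num
    rw [e]
    exact P.mul_mem_left _ h
  have hone : u ∈ P ∨ v ∈ P := by
    have h1 : 108 * tO u v ^ 4 ∈ P := by
      have e : 108 * tO u v ^ 4 = wO u v ^ 3 - xO u v ^ 2 := by
        rw [← oct]
        ring
      rw [e]
      exact P.sub_mem (Ideal.pow_mem_of_mem P hw 3 (by norm_num)) (Ideal.pow_mem_of_mem P hx 2 (by norm_num))
    rcases hPp.mem_or_mem h1 with h | h
    · have e : (108 : 𝓞 K) = 2 ^ 2 * 3 ^ 3 := by norm_num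
      rw [e] at h
      rcases hPp.mem_or_mem h with h | h
      · exact h2P (hPp.mem_of_pow_mem _ h)
      · exact h3P (hPp.mem_of_pow_mem _ h)
    · have h2 := hPp.mem_of_pow_mem _ h
      unfold tO at h2
      rcases hPp.mem_or_mem h2 with h3 | h3
      · exact hPp.mem_or_mem h3
      · have h4 : 16 * v ^ 8 ∈ P := by
          rw [← bez u v]
          exact P.sub_mem hw (P.mul_mem_right _ h3)
        rcases hPp.mem_or_mem h4 with h5 | h5
        · have e : (16 : 𝓞 K) = 2 ^ 4 := by norm_num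
          rw [e] at h5
          exact h2P (hPp.mem_of_pow_mem _ h5)
        · exact Or.inr (hPp.mem_of_pow_mem _ h5)
  rcases hone with h | h
  · obtain ⟨r, hr⟩ := w_u u v
    have h1 : v ^ 8 ∈ P := by
      have : v ^ 8 = wO u v - u * r := by rw [hr]; ring
      rw [this]
      exact P.sub_mem hw (P.mul_mem_right _ h)
    exact hbad ⟨h, hPp.mem_of_pow_mem _ h1⟩
  · obtain ⟨r, hr⟩ := w_v u v
    have h1 : u ^ 8 ∈ P := by
      have : u ^ 8 = wO u v - v * r := by rw [hr]; ring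
      rw [this]
      exact P.sub_mem hw (P.mul_mem_right _ h)
    exact hbad ⟨hPp.mem_of_pow_mem _ h1, h⟩

end Pool.Agent.Q252.OC
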