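import Pool.Agent.Q252.OC.B
import Pool.Agent.Q252.OC.C
import Pool.Agent.Q252.IC.E

set_option autoImplicit false

/-!
# The abc conjecture over `𝓞 K` and the octahedral equation
-/

namespace Pool.Agent.Q252.OC

open NumberField Height Function Polynomial
open Pool.Agent.Q252.IC (ABCOn Triple)

variable {K : Type} [Field K] [NumberField K]

/-- the triples given by the octahedral forms at `(u, v)` with `M ∣ u v` -/
def Forms (M : 𝓞 K) : Set (𝓞 K × 𝓞 K × 𝓞 K) :=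
  {t | ∃ u v : 𝓞 K, IsCoprime u v ∧ M ∣ u * v ∧
    t = (-xO u v ^ 2, wO u v ^ 3, -108 * tO u v ^ 4)}

theorem main [IsPrincipalIdealRing (𝓞 K)] {M : 𝓞 K} (hM : M ≠ 0) (h6 : (6 : 𝓞 K) ∣ M) (H : ABCOn (Forms M)) :
    ABCOn (K := K) Set.univ := by
  obtain ⟨m, hm, hrep⟩ := coprime_rep M hM
  apply Q252.IC.of_V
  apply Q252.IC.step2 m hm
  apply step1
  apply Q252.IC.to_V H
  rintro y ⟨s', ⟨t, -, -, rfl⟩, hq, rfl⟩ hy0 hy1
  obtain ⟨u, v, hv, huv, hMuv, he⟩ := hrep t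
  have hvK : (v : K) ≠ 0 := RingOfIntegers.coe_ne_zero_iff.2 hv
  have es : (4 * X ^ m * (1 - X ^ m) : K[X]).eval t / (1 : K[X]).eval t = (u : K) / v := by
    rw [← he]
    simp
  rw [es] at hq hy0 hy1 ⊢
  simp only [eval_mul, eval_pow, eval_C, t_eval, w_eval] at hq hy0 hy1 ⊢
  have ef := t_hom (u : K) hvK
  have eh := w_hom (u : K) hvK
  have hf1 : tO ((u : K) / v) 1 = ((tO u v : 𝓞 K) : K) / (v : K) ^ 6 := by
    have := t_map (algebraMap (𝓞 K) K) u v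
    rw [eq_div_iff (pow_ne_zero _ hvK)]
    refine Eq.trans ?_ this.symm
    rw [ef]
    ring
  have hh1 : wO ((u : K) / v) 1 = ((wO u v : 𝓞 K) : K) / (v : K) ^ 8 := by
    have := w_map (algebraMap (𝓞 K) K) u v
    rw [eq_div_iff (pow_ne_zero _ hvK)]
    refine Eq.trans ?_ this.symm
    rw [eh]
    ring
  have hhne : ((wO u v : 𝓞 K) : K) ≠ 0 := by
    intro h
    apply hq
    rw [hh1, h]
    simp
  have ey : 108 * tO ((u : K) / v) 1 ^ 4 / wO ((u : K) / v) 1 ^ 3 =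
      108 * ((tO u v : 𝓞 K) : K) ^ 4 / ((wO u v : 𝓞 K) : K) ^ 3 := by
    rw [hf1, hh1]
    field_simp
  rw [ey] at hy0 hy1 ⊢
  have ecoe : ((-108 * tO u v ^ 4 : 𝓞 K) : K) = -(108 * ((tO u v : 𝓞 K) : K) ^ 4) := by
    have : algebraMap (𝓞 K) K (-108 * tO u v ^ 4) = -(108 * (algebraMap (𝓞 K) K (tO u v)) ^ 4) := by
      rw [map_mul, map_neg, map_pow, map_ofNat]
      ring
    exact this
  have ecoh : ((wO u v ^ 3 : 𝓞 K) : K) = ((wO u v : 𝓞 K) : K) ^ 3 := map_pow (algebraMap (𝓞 K) K) _ _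
  refine ⟨(-xO u v ^ 2, wO u v ^ 3, -108 * tO u v ^ 4), ⟨u, v, huv, hMuv, rfl⟩, ⟨?_, ?_, ?_⟩, ?_⟩
  · show -xO u v ^ 2 + wO u v ^ 3 + -108 * tO u v ^ 4 = 0
    rw [← oct]
    ring
  · show -xO u v ^ 2 * wO u v ^ 3 * (-108 * tO u v ^ 4) ≠ 0
    have hh0 : wO u v ≠ 0 := fun h => hhne (by rw [h]; exact map_zero _)
    have hf0 : tO u v ≠ 0 := by
      intro h
      apply hy0
      rw [h]
      have : ((0 : 𝓞 K) : K) = 0 := map_zero _
      rw [this]
      simp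
    have ht0 : xO u v ≠ 0 := by
      intro h
      apply hy1
      rw [div_eq_one_iff_eq (pow_ne_zero _ hhne)]
      have h2 := congrArg (algebraMap (𝓞 K) K) (oct u v)
      rw [h] at h2
      simp only [map_add, map_mul, map_pow, map_zero, map_ofNat] at h2
      refine Eq.trans ?_ h2
      rw [zero_pow (by norm_num), zero_add]
    have h108 : (-108 : 𝓞 K) ≠ 0 := by norm_num
    exact mul_ne_zero (mul_ne_zero (neg_ne_zero.2 (pow_ne_zero _ ht0)) (pow_ne_zero _ hh0))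
      (mul_ne_zero h108 (pow_ne_zero _ hf0))
  · have hc : IsCoprime (xO u v ^ 2) (wO u v ^ 3) :=
      (cop_xw huv (h6.trans hMuv)).pow
    obtain ⟨x, y, hxy⟩ := hc
    have e1 : (1 : 𝓞 K) = (-x) * (-xO u v ^ 2) + y * wO u v ^ 3 := by
      rw [← hxy]
      ring
    rw [Ideal.eq_top_iff_one, e1]
    refine Ideal.add_mem _ (Ideal.mul_mem_left _ _ (Ideal.subset_span ?_))
      (Ideal.mul_mem_left _ _ (Ideal.subset_span ?_))
    · exact Set.mem_insert _ _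
    · exact Set.mem_insert_of_mem _ (Set.mem_insert _ _)
  · show 108 * ((tO u v : 𝓞 K) : K) ^ 4 / ((wO u v : 𝓞 K) : K) ^ 3 =
      -((-108 * tO u v ^ 4 : 𝓞 K) : K) / ((wO u v ^ 3 : 𝓞 K) : K)
    rw [ecoe, ecoh, neg_neg]

end Pool.Agent.Q252.OC
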