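import Pool.Agent.Q252.OC.E
import Pool.Agent.TH402.AK.Count

set_option autoImplicit false

/-!
# The abc inequality over the Gaussian integers and over `𝓞 K4`
-/

namespace Pool.Agent.Q252.OC

open NumberField IsDedekindDomain
open Pool.Agent.TH402.AK (K4 e place_e finrank4 rad rad_sq)

instance : IsPrincipalIdealRing (𝓞 K4) :=
  IsPrincipalIdealRing.of_surjective (e : GaussianInt →+* 𝓞 K4) e.surjective

/-- `max {|a|, |b|, |a + b|}` -/
noncomputable def size (a b : GaussianInt) : ℝ :=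
  max ‖GaussianInt.toComplex a‖ (max ‖GaussianInt.toComplex b‖ ‖GaussianInt.toComplex (a + b)‖)

/-- the conditions on a triple `a + b = c` -/
def GT (p : GaussianInt × GaussianInt) : Prop :=
  p.1 ≠ 0 ∧ p.2 ≠ 0 ∧ p.1 + p.2 ≠ 0 ∧ IsCoprime p.1 p.2

/-- the abc inequality for the triples in `T` -/
def GABC (T : Set (GaussianInt × GaussianInt)) : Prop :=
  ∀ ε : ℝ, 0 < ε → ∃ c : ℝ, 0 < c ∧ ∀ p ∈ T, GT p → c * size p.1 p.2 ^ (1 - ε) ≤ rad (p.1 * p.2 * (p.1 + p.2))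

/-- the triple over `𝓞 K4` -/
noncomputable def tau (p : GaussianInt × GaussianInt) : 𝓞 K4 × 𝓞 K4 × 𝓞 K4 :=
  (-e p.1, e (p.1 + p.2), -e p.2)

theorem tau_triple {p : GaussianInt × GaussianInt} (h : GT p) : Q252.IC.Triple (tau p) := by
  obtain ⟨h1, h2, h3, h4⟩ := h
  refine ⟨?_, ?_, ?_⟩
  · show -e p.1 + e (p.1 + p.2) + -e p.2 = 0
    rw [map_add]
    ring
  · show -e p.1 * e (p.1 + p.2) * -e p.2 ≠ 0
    have k1 : e p.1 ≠ 0 := (map_ne_zero_iff e e.injective).2 h1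
    have k2 : e p.2 ≠ 0 := (map_ne_zero_iff e e.injective).2 h2
    have k3 : e (p.1 + p.2) ≠ 0 := (map_ne_zero_iff e e.injective).2 h3
    exact mul_ne_zero (mul_ne_zero (neg_ne_zero.2 k1) k3) (neg_ne_zero.2 k2)
  · obtain ⟨x, y, hxy⟩ := h4
    have e1 : (1 : 𝓞 K4) = (-e x) * (-e p.1) + (-e y) * (-e p.2) := by
      have := congrArg e hxy
      rw [map_add, map_mul, map_mul, map_one] at this
      rw [← this]
      ring
    rw [Ideal.eq_top_iff_one, e1]
    refine Ideal.add_mem _ (Ideal.mul_mem_left _ _ (Ideal.subset_span ?_))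
      (Ideal.mul_mem_left _ _ (Ideal.subset_span ?_))
    · exact Set.mem_insert _ _
    · exact Set.mem_insert_of_mem _ (Set.mem_insert_of_mem _ rfl)

theorem triple_tau {t : 𝓞 K4 × 𝓞 K4 × 𝓞 K4} (h : Q252.IC.Triple t) :
    ∃ p : GaussianInt × GaussianInt, GT p ∧ t = tau p := by
  obtain ⟨a, ha⟩ := e.surjective (-t.1)
  obtain ⟨b, hb⟩ := e.surjective (-t.2.2)
  have hab : e (a + b) = t.2.1 := by
    rw [map_add, ha, hb]
    linear_combination -h.sum
  have ht : t = tau (a, b) := by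
    refine Prod.ext ?_ (Prod.ext ?_ ?_)
    · show t.1 = -e a
      rw [ha, neg_neg]
    · exact hab.symm
    · show t.2.2 = -e b
      rw [hb, neg_neg]
  have hne := h.ne
  rw [ht] at hne
  have hne' : -e a * e (a + b) * -e b ≠ 0 := hne
  have k1 : a ≠ 0 := by
    rintro rfl
    apply hne'
    rw [map_zero]
    ring
  have k2 : b ≠ 0 := by
    rintro rfl
    apply hne'
    rw [map_zero]
    ring
  have k3 : a + b ≠ 0 := by
    intro h0
    apply hne'
    rw [h0, map_zero]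
    ring
  refine ⟨(a, b), ⟨k1, k2, k3, ?_⟩, ht⟩
  have hcop := h.cop
  rw [Ideal.eq_top_iff_one, Ideal.mem_span_insert] at hcop
  obtain ⟨x, z, hz, h1⟩ := hcop
  rw [Ideal.mem_span_pair] at hz
  obtain ⟨y, w, rfl⟩ := hz
  have h2 : IsCoprime (e a) (e b) := by
    refine ⟨-x + y, -w + y, ?_⟩
    rw [ha, hb]
    have := h.sum
    linear_combination (-1 : 𝓞 K4) * h1 + 0 * this - y * this
  obtain ⟨x', y', h3⟩ := h2.map (e.symm : 𝓞 K4 →+* GaussianInt)
  refine ⟨x', y', ?_⟩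
  simpa using h3

theorem emb_norm (φ : K4 →+* ℂ) (z : GaussianInt) : ‖φ ((e z : 𝓞 K4) : K4)‖ = ‖GaussianInt.toComplex z‖ := by
  rw [← place_e (InfinitePlace.mk φ) z]
  rfl

theorem height_tau (p : GaussianInt × GaussianInt) : Q252.IC.height (tau p) = size p.1 p.2 ^ 2 := by
  unfold Q252.IC.height tau
  have h1 : ∀ φ : K4 →+* ℂ, max ‖φ ((-e p.1 : 𝓞 K4) : K4)‖ (max ‖φ ((e (p.1 + p.2) : 𝓞 K4) : K4)‖
      ‖φ ((-e p.2 : 𝓞 K4) : K4)‖) = size p.1 p.2 := by
    intro φ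
    have e1 : ((-e p.1 : 𝓞 K4) : K4) = -((e p.1 : 𝓞 K4) : K4) := map_neg (algebraMap (𝓞 K4) K4) _
    have e2 : ((-e p.2 : 𝓞 K4) : K4) = -((e p.2 : 𝓞 K4) : K4) := map_neg (algebraMap (𝓞 K4) K4) _
    rw [e1, e2, map_neg, map_neg, norm_neg, norm_neg, emb_norm, emb_norm, emb_norm]
    unfold size
    congr 1
    exact max_comm _ _
  rw [Finset.prod_congr rfl fun φ _ => h1 φ, Finset.prod_const, Finset.card_univ, NumberField.Embeddings.card,
    finrank4]

theorem rad_tau {p : GaussianInt × GaussianInt} (h : GT p) :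
    Q252.IC.rad (tau p) = rad (p.1 * p.2 * (p.1 + p.2)) ^ 2 := by
  classical
  have hn : p.1 * p.2 * (p.1 + p.2) ≠ 0 := mul_ne_zero (mul_ne_zero h.1 h.2.1) h.2.2.1
  have hen : e (p.1 * p.2 * (p.1 + p.2)) ≠ 0 := (map_ne_zero_iff e e.injective).2 hn
  have hmem : ∀ v : HeightOneSpectrum (𝓞 K4), ((tau p).1 * (tau p).2.1 * (tau p).2.2 ∈ v.asIdeal) ↔
      e (p.1 * p.2 * (p.1 + p.2)) ∈ v.asIdeal := by
    intro v
    have : (tau p).1 * (tau p).2.1 * (tau p).2.2 = e (p.1 * p.2 * (p.1 + p.2)) := by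
      show -e p.1 * e (p.1 + p.2) * -e p.2 = _
      rw [map_mul, map_mul]
      ring
    rw [this]
  have hfin : {v : HeightOneSpectrum (𝓞 K4) | e (p.1 * p.2 * (p.1 + p.2)) ∈ v.asIdeal}.Finite := by
    have h1 := Ideal.finite_factors (I := Ideal.span {e (p.1 * p.2 * (p.1 + p.2))}) (by
      rw [Ne, Ideal.zero_eq_bot, Ideal.span_singleton_eq_bot]
      exact hen)
    refine h1.subset ?_
    intro v hv
    show v.asIdeal ∣ _
    rw [Ideal.dvd_span_singleton]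
    exact hv
  rw [rad_sq hfin.toFinset (fun v => by simp)]
  unfold Q252.IC.rad Pool.Agent.TH876.Loc.nn
  have h2 : ∀ v : HeightOneSpectrum (𝓞 K4), (∏ᶠ (_ : (tau p).1 * (tau p).2.1 * (tau p).2.2 ∈ v.asIdeal),
      (Ideal.absNorm v.asIdeal : ℝ)) = ∏ᶠ (_ : v ∈ hfin.toFinset), (Ideal.absNorm v.asIdeal : ℝ) := by
    intro v
    have : ((tau p).1 * (tau p).2.1 * (tau p).2.2 ∈ v.asIdeal) = (v ∈ hfin.toFinset) := by
      rw [hmem v]
      simp
    simp only [this]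
  rw [finprod_congr h2, finprod_mem_finset_eq_prod]
  rfl

end Pool.Agent.Q252.OC
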