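import Pool.Agent.Q252.OC.F

set_option autoImplicit false

/-!
# The abc conjecture over the Gaussian integers and the octahedral equation
-/

namespace Pool.Agent.Q252.OC

open NumberField IsDedekindDomain
open Pool.Agent.TH402.AK (K4 e place_e finrank4 rad rad_sq)

/-- the triples `χ² + 108 t⁴ = W³` with the octahedral forms at coprime `u`, `v` such that `N ∣ u v` -/
def GForms (N : GaussianInt) : Set (GaussianInt × GaussianInt) :=
  {p | ∃ u v : GaussianInt, IsCoprime u v ∧ N ∣ u * v ∧ p = (xO u v ^ 2, 108 * tO u v ^ 4)}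

theorem forms_tau {N : GaussianInt} {t : 𝓞 K4 × 𝓞 K4 × 𝓞 K4} (h : t ∈ Forms (e N)) :
    ∃ p ∈ GForms N, t = tau p := by
  obtain ⟨u', v', h1, h2, h3⟩ := h
  obtain ⟨u, rfl⟩ := e.surjective u'
  obtain ⟨v, rfl⟩ := e.surjective v'
  refine ⟨(xO u v ^ 2, 108 * tO u v ^ 4), ⟨u, v, ?_, ?_, rfl⟩, ?_⟩
  · obtain ⟨x, y, hxy⟩ := h1.map (e.symm : 𝓞 K4 →+* GaussianInt)
    refine ⟨x, y, ?_⟩
    simpa using hxy
  · obtain ⟨c, hc⟩ := h2
    refine ⟨e.symm c, e.injective ?_⟩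
    rw [map_mul, map_mul, RingEquiv.apply_symm_apply]
    exact hc
  · rw [h3]
    have hx : e (xO u v) = xO (e u) (e v) := x_map (e : GaussianInt →+* 𝓞 K4) u v
    have hw : e (wO u v) = wO (e u) (e v) := w_map (e : GaussianInt →+* 𝓞 K4) u v
    have ht : e (tO u v) = tO (e u) (e v) := t_map (e : GaussianInt →+* 𝓞 K4) u v
    unfold tau
    refine Prod.ext ?_ (Prod.ext ?_ ?_)
    · show -xO (e u) (e v) ^ 2 = -e (xO u v ^ 2)
      rw [map_pow, hx]
    · show wO (e u) (e v) ^ 3 = e (xO u v ^ 2 + 108 * tO u v ^ 4)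
      rw [oct, map_pow, hw]
    · show -108 * tO (e u) (e v) ^ 4 = -e (108 * tO u v ^ 4)
      rw [map_mul, map_pow, ht, map_ofNat]
      ring

theorem one_le_rad' {p : GaussianInt × GaussianInt} (h : GT p) : 1 ≤ rad (p.1 * p.2 * (p.1 + p.2)) := by
  have h1 := Q252.IC.one_le_rad (tau_triple h)
  rw [rad_tau h] at h1
  have h0 : 0 ≤ rad (p.1 * p.2 * (p.1 + p.2)) := by
    unfold Pool.Agent.TH402.AK.rad
    exact finprod_nonneg fun _ => finprod_nonneg fun _ => norm_nonneg _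
  nlinarith

theorem one_le_size' {p : GaussianInt × GaussianInt} (h : GT p) : 1 ≤ size p.1 p.2 :=
  Pool.Agent.TH402.AK.one_le_size h

theorem to_K {F : Set (GaussianInt × GaussianInt)} {G : Set (𝓞 K4 × 𝓞 K4 × 𝓞 K4)}
    (hFG : ∀ t ∈ G, ∃ p ∈ F, t = tau p) (H : GABC F) : Q252.IC.ABCOn G := by
  intro ε hε
  have h1ε : 0 < 1 + ε := by linarith
  obtain ⟨c, hc, hH⟩ := H (ε / (1 + ε)) (by positivity)
  refine ⟨(1 / c) ^ (2 * (1 + ε)), fun t ht hT => ?_⟩
  obtain ⟨p, hp, rfl⟩ := hFG t ht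
  have hG : GT p := by
    obtain ⟨q, hq, he⟩ := triple_tau hT
    have : p = q := by
      have e1 := congrArg Prod.fst he
      have e2 := congrArg (fun x => x.2.2) he
      exact Prod.ext (e.injective (neg_injective e1)) (e.injective (neg_injective e2))
    rwa [this]
  have h2 := hH p hp hG
  have hs := one_le_size' hG
  have hr := one_le_rad' hG
  rw [height_tau, rad_tau hG]
  obtain ⟨s, hs'⟩ : ∃ s, s = size p.1 p.2 := ⟨_, rfl⟩
  obtain ⟨r, hr'⟩ : ∃ r, r = rad (p.1 * p.2 * (p.1 + p.2)) := ⟨_, rfl⟩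
  rw [← hs', ← hr'] at h2
  rw [← hs'] at hs
  rw [← hr'] at hr
  rw [← hs', ← hr']
  have e1 : 1 - ε / (1 + ε) = 1 / (1 + ε) := by
    field_simp
    ring
  rw [e1] at h2
  have h3 : s ^ (1 / (1 + ε)) ≤ 1 / c * r := by
    rw [one_div_mul_eq_div, le_div_iff₀' hc]
    exact h2
  have h4 : (s ^ (1 / (1 + ε))) ^ (2 * (1 + ε)) ≤ (1 / c * r) ^ (2 * (1 + ε)) :=
    Real.rpow_le_rpow (by positivity) h3 (by positivity)
  rw [← Real.rpow_mul (by positivity), Real.mul_rpow (by positivity) (by positivity)] at h4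
  have e2 : 1 / (1 + ε) * (2 * (1 + ε)) = (2 : ℕ) := by
    field_simp
    norm_num
  rw [e2, Real.rpow_natCast] at h4
  refine h4.trans (le_of_eq ?_)
  congr 1
  rw [Real.rpow_mul (by positivity)]
  norm_cast

theorem of_K (H : Q252.IC.ABCOn (K := K4) Set.univ) : GABC Set.univ := by
  intro ε hε
  by_cases hε1 : 1 ≤ ε
  · refine ⟨1, one_pos, fun p _ hG => ?_⟩
    have hs := one_le_size' hG
    have hr := one_le_rad' hG
    rw [one_mul]
    exact (Real.rpow_le_one_of_one_le_of_nonpos hs (by linarith)).trans hr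
  push Not at hε1
  obtain ⟨C, hC⟩ := H ε hε
  obtain ⟨C1, hC1⟩ : ∃ C1 : ℝ, C1 = max C 1 := ⟨_, rfl⟩
  have hC11 : 1 ≤ C1 := by rw [hC1]; exact le_max_right _ _
  refine ⟨1 / C1 ^ ((1 - ε) / 2), by positivity, fun p _ hG => ?_⟩
  have hs := one_le_size' hG
  have hr := one_le_rad' hG
  have h1 := hC (tau p) (Set.mem_univ _) (tau_triple hG)
  rw [height_tau, rad_tau hG] at h1
  obtain ⟨s, hs'⟩ : ∃ s, s = size p.1 p.2 := ⟨_, rfl⟩
  obtain ⟨r, hr'⟩ : ∃ r, r = rad (p.1 * p.2 * (p.1 + p.2)) := ⟨_, rfl⟩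
  rw [← hs', ← hr'] at h1
  rw [← hs'] at hs
  rw [← hr'] at hr
  rw [← hs', ← hr']
  have h2 : s ^ 2 ≤ C1 * (r ^ 2) ^ (1 + ε) := by
    refine h1.trans ?_
    gcongr
    rw [hC1]
    exact le_max_left _ _
  have h3 : (s ^ 2) ^ ((1 - ε) / 2) ≤ (C1 * (r ^ 2) ^ (1 + ε)) ^ ((1 - ε) / 2) :=
    Real.rpow_le_rpow (by positivity) h2 (by linarith)
  have e1 : (s ^ 2) ^ ((1 - ε) / 2) = s ^ (1 - ε) := by
    rw [← Real.rpow_natCast s 2, ← Real.rpow_mul (by positivity)]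
    congr 1
    push_cast
    ring
  have e2 : (C1 * (r ^ 2) ^ (1 + ε)) ^ ((1 - ε) / 2) = C1 ^ ((1 - ε) / 2) * r ^ ((1 + ε) * (1 - ε)) := by
    rw [Real.mul_rpow (by positivity) (by positivity), ← Real.rpow_natCast r 2, ← Real.rpow_mul (by positivity),
      ← Real.rpow_mul (by positivity)]
    congr 2
    push_cast
    ring
  rw [e1, e2] at h3
  have h4 : r ^ ((1 + ε) * (1 - ε)) ≤ r := by
    calc r ^ ((1 + ε) * (1 - ε)) ≤ r ^ (1 : ℝ) := Real.rpow_le_rpow_of_exponent_le hr (by nlinarith)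
      _ = r := Real.rpow_one r
  have hC1p : 0 < C1 ^ ((1 - ε) / 2) := by positivity
  rw [one_div, inv_mul_le_iff₀ hC1p]
  exact h3.trans (mul_le_mul_of_nonneg_left h4 hC1p.le)

theorem GForms_mono {N M : GaussianInt} (h : N ∣ M) : GForms M ⊆ GForms N := by
  rintro p ⟨u, v, h1, h2, h3⟩
  exact ⟨u, v, h1, h.trans h2, h3⟩

theorem back {N : GaussianInt} (hN : N ≠ 0) (H : GABC (GForms N)) : GABC Set.univ := by
  have h1 : GABC (GForms (6 * N)) := by
    intro ε hε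
    obtain ⟨c, hc, h⟩ := H ε hε
    exact ⟨c, hc, fun p hp => h p (GForms_mono (Dvd.intro_left _ rfl) hp)⟩
  have h6 : (6 : GaussianInt) ≠ 0 := by decide
  have hM : e (6 * N) ≠ 0 := (map_ne_zero_iff e e.injective).2 (mul_ne_zero h6 hN)
  have hd : (6 : 𝓞 K4) ∣ e (6 * N) := by
    rw [map_mul, map_ofNat]
    exact Dvd.intro _ rfl
  exact of_K (main hM hd (to_K (fun t ht => forms_tau ht) h1))

end Pool.Agent.Q252.OC
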